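import Mathlib

/-!
# Tournaments with large domination number contain the tournaments `S_t`: basic notions

`Cont adj t Y` says that the finite set `Y` contains a copy of the tournament `S_(t+1)`, where `S_1` is one vertex and
`S_(t+1) = Δ(S_t, S_t, 1)`.
A colouring is good on `X` if no colour class `i` contains `S_(s i + 2)`.
-/

set_option autoImplicit false

open Classical

namespace Pool.Agent.helper87_dom

section Basic

variable {V ι : Type}

/-- `Cont adj t Y`: the finite set `Y` contains a copy of the tournament `S_(t+1)`. -/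
def Cont (adj : V → V → Prop) : ℕ → Finset V → Prop
  | 0, Y => Y.Nonempty
  | (t + 1), Y => ∃ A ⊆ Y, ∃ B ⊆ Y, ∃ c ∈ Y, Cont adj t A ∧ Cont adj t B ∧
      (∀ a ∈ A, ∀ b ∈ B, adj a b) ∧ (∀ b ∈ B, adj b c) ∧ (∀ a ∈ A, adj c a)

theorem Cont.mono {adj : V → V → Prop} {t : ℕ} {Y Z : Finset V} (h : Cont adj t Y) (hYZ : Y ⊆ Z) :
    Cont adj t Z := by
  cases t with
  | zero => exact Finset.Nonempty.mono hYZ h
  | succ t =>
    obtain ⟨A, hA, B, hB, c, hc, h1, h2, h3⟩ := h
    exact ⟨A, hA.trans hYZ, B, hB.trans hYZ, c, hYZ hc, h1, h2, h3⟩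

theorem Cont.nonempty {adj : V → V → Prop} {t : ℕ} {Y : Finset V} (h : Cont adj t Y) : Y.Nonempty := by
  cases t with
  | zero => exact h
  | succ t =>
    obtain ⟨A, hA, B, hB, c, hc, h1, h2, h3⟩ := h
    exact ⟨c, hc⟩

/-- The colouring `χ` is good on `X`: colour class `i` does not contain `S_(s i + 2)`. -/
def Good (adj : V → V → Prop) (s : ι → ℕ) (X : Finset V) (χ : V → ι) : Prop :=
  ∀ i, ¬ Cont adj (s i + 1) (X.filter (fun v => χ v = i))

theorem Good.mono {adj : V → V → Prop} {s : ι → ℕ} {X Y : Finset V} {χ : V → ι} (h : Good adj s Y χ)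
    (hXY : X ⊆ Y) : Good adj s X χ := by
  intro i hi
  exact h i (hi.mono (Finset.filter_subset_filter _ hXY))

theorem Good.congr {adj : V → V → Prop} {s : ι → ℕ} {X : Finset V} {χ χ' : V → ι} (h : Good adj s X χ)
    (hc : ∀ v ∈ X, χ' v = χ v) : Good adj s X χ' := by
  intro i hi
  apply h i
  apply hi.mono
  intro v hv
  rw [Finset.mem_filter] at hv ⊢
  exact ⟨hv.1, by rw [← hc v hv.1]; exact hv.2⟩

/-- The colouring `β` of `X` is `ℓ`-extendable. -/
def Ext (adj : V → V → Prop) (s : ι → ℕ) (ℓ : ℕ) (X : Finset V) (β : V → ι) : Prop :=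
  ∀ Y : Finset V, Y.card ≤ ℓ → ∃ χ : V → ι, (∀ v ∈ X, χ v = β v) ∧ Good adj s (X ∪ Y) χ

theorem Ext.level {adj : V → V → Prop} {s : ι → ℕ} {ℓ ℓ' : ℕ} {X : Finset V} {β : V → ι}
    (h : Ext adj s ℓ' X β) (hl : ℓ ≤ ℓ') : Ext adj s ℓ X β := by
  intro Y hY
  exact h Y (hY.trans hl)

theorem Ext.restrict {adj : V → V → Prop} {s : ι → ℕ} {ℓ : ℕ} {X X' : Finset V} {β : V → ι}
    (h : Ext adj s ℓ X' β) (hX : X ⊆ X') : Ext adj s ℓ X β := by
  intro Y hY
  obtain ⟨χ, h1, h2⟩ := h Y hY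
  exact ⟨χ, fun v hv => h1 v (hX hv), h2.mono (Finset.union_subset_union_left hX)⟩

theorem Ext.good {adj : V → V → Prop} {s : ι → ℕ} {ℓ : ℕ} {X : Finset V} {β : V → ι}
    (h : Ext adj s ℓ X β) : Good adj s X β := by
  obtain ⟨χ, h1, h2⟩ := h ∅ (by simp)
  exact (h2.mono (Finset.subset_union_left)).congr (fun v hv => (h1 v hv).symm)

theorem Ext.congr {adj : V → V → Prop} {s : ι → ℕ} {ℓ : ℕ} {X : Finset V} {β β' : V → ι}
    (h : Ext adj s ℓ X β) (hc : ∀ v ∈ X, β' v = β v) : Ext adj s ℓ X β' := by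
  intro Y hY
  obtain ⟨χ, h1, h2⟩ := h Y hY
  exact ⟨χ, fun v hv => (h1 v hv).trans (hc v hv).symm, h2⟩

/-- The extension lemma: a highly extendable colouring of `X` extends to an extendable one on `X ∪ Y`. -/
theorem Ext.extend [Fintype ι] {adj : V → V → Prop} {s : ι → ℕ} {ℓ m : ℕ} {X Y : Finset V} {β : V → ι}
    (hY : Y.card ≤ m) (h : Ext adj s (m + (Fintype.card ι + 1) ^ m * ℓ) X β) :
    ∃ β' : V → ι, (∀ v ∈ X, β' v = β v) ∧ Ext adj s ℓ (X ∪ Y) β' := by
  by_contra hcon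
  push Not at hcon
  let ext : (↥Y → ι) → V → ι := fun ρ v =>
    if v ∈ X then β v else if hv : v ∈ Y then ρ ⟨v, hv⟩ else β v
  have hext : ∀ ρ, ∀ v ∈ X, ext ρ v = β v := by
    intro ρ v hv
    simp only [ext, if_pos hv]
  have hZ : ∀ ρ : ↥Y → ι, ∃ Z : Finset V, Z.card ≤ ℓ ∧
      ∀ χ : V → ι, (∀ v ∈ X ∪ Y, χ v = ext ρ v) → ¬ Good adj s (X ∪ Y ∪ Z) χ := by
    intro ρ
    have := hcon (ext ρ) (hext ρ)
    unfold Ext at this
    push Not at this
    obtain ⟨Z, hZ1, hZ2⟩ := this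
    exact ⟨Z, hZ1, hZ2⟩
  choose Z hZ1 hZ2 using hZ
  have hcard : (Y ∪ (Finset.univ : Finset (↥Y → ι)).biUnion Z).card ≤
      m + (Fintype.card ι + 1) ^ m * ℓ := by
    refine (Finset.card_union_le _ _).trans (Nat.add_le_add hY ?_)
    refine (Finset.card_biUnion_le_card_mul _ _ ℓ (fun ρ _ => hZ1 ρ)).trans ?_
    apply Nat.mul_le_mul_right
    rw [Finset.card_univ, Fintype.card_fun, Fintype.card_coe]
    calc (Fintype.card ι) ^ Y.card ≤ (Fintype.card ι + 1) ^ Y.card := Nat.pow_le_pow_left (Nat.le_succ _) _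
      _ ≤ (Fintype.card ι + 1) ^ m := Nat.pow_le_pow_right (Nat.succ_pos _) hY
  obtain ⟨χ, h1, h2⟩ := h _ hcard
  apply hZ2 (fun y => χ y) χ
  · intro v hv
    by_cases hvX : v ∈ X
    · exact (h1 v hvX).trans (hext (fun y : ↥Y => χ y) v hvX).symm
    · have hvY : v ∈ Y := by
        rcases Finset.mem_union.1 hv with h' | h'
        · exact absurd h' hvX
        · exact h'
      simp only [ext, if_neg hvX, dif_pos hvY]
  · apply h2.mono
    intro v hv
    rcases Finset.mem_union.1 hv with h' | h'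
    · rcases Finset.mem_union.1 h' with h'' | h''
      · exact Finset.mem_union_left _ h''
      · exact Finset.mem_union_right _ (Finset.mem_union_left _ h'')
    · refine Finset.mem_union_right _ (Finset.mem_union_right _ ?_)
      exact Finset.mem_biUnion.2 ⟨fun y => χ y, Finset.mem_univ _, h'⟩

/-- `x` is `c`-dominated by `W` under the colouring `γ`. -/
def Dm (adj : V → V → Prop) (s : ι → ℕ) (W : Finset V) (γ : V → ι) (x : V) (c : ι) : Prop :=
  Cont adj (s c) (W.filter (fun w => γ w = c ∧ adj w x))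

theorem Dm.mono {adj : V → V → Prop} {s : ι → ℕ} {W W' : Finset V} {γ : V → ι} {x : V} {c : ι}
    (h : Dm adj s W γ x c) (hW : W ⊆ W') : Dm adj s W' γ x c :=
  Cont.mono h (Finset.filter_subset_filter _ hW)

theorem Dm.congr {adj : V → V → Prop} {s : ι → ℕ} {W : Finset V} {γ γ' : V → ι} {x : V} {c : ι}
    (h : Dm adj s W γ x c) (hc : ∀ w ∈ W, γ' w = γ w) : Dm adj s W γ' x c := by
  apply Cont.mono h
  intro w hw
  rw [Finset.mem_filter] at hw ⊢
  exact ⟨hw.1, by rw [hc w hw.1]; exact hw.2.1, hw.2.2⟩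

/-- Full sets: bounded size, and in every good colouring no colour class is a union of two small sets. -/
def Full (adj : V → V → Prop) (s : ι → ℕ) (b : ℕ) (B : Finset V) : Prop :=
  B.card ≤ b ∧ ∀ χ : V → ι, Good adj s B χ → ∀ (i : ι) (p : V → Prop),
    Cont adj (s i) (B.filter (fun v => χ v = i ∧ p v)) ∨
      Cont adj (s i) (B.filter (fun v => χ v = i ∧ ¬ p v))

/-- The exclusion principle. -/
theorem exclusion {adj : V → V → Prop} {s : ι → ℕ} {b : ℕ}
    (hirr : ∀ u, ¬ adj u u) (htour : ∀ u v, u ≠ v → (adj u v ↔ ¬ adj v u))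
    {W B : Finset V} {β χ : V → ι} {x : V} {c : ι} (hB : Full adj s b B)
    (hBW : ∀ u ∈ B, ∀ w ∈ W, adj u w) (h1 : Dm adj s W β x c) (h2 : ¬ Dm adj s B β x c)
    (hW : ∀ v ∈ W, χ v = β v) (hB' : ∀ v ∈ B, χ v = β v)
    (hgood : Good adj s (insert x (W ∪ B)) χ) : χ x ≠ c := by
  intro hx
  have hgB : Good adj s B β :=
    (hgood.mono (Finset.subset_union_right.trans (Finset.subset_insert _ _))).congr
      (fun v hv => (hB' v hv).symm)
  have h3 : Cont adj (s c) (B.filter (fun v => β v = c ∧ ¬ adj v x)) := by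
    rcases hB.2 β hgB c (fun v => adj v x) with h | h
    · exact absurd h h2
    · exact h
  have hasymm : ∀ u v, adj u v → ¬ adj v u := by
    intro u v huv hvu
    by_cases h : u = v
    · subst h; exact hirr _ huv
    · exact (htour u v h).1 huv hvu
  apply hgood c
  refine ⟨B.filter (fun v => β v = c ∧ ¬ adj v x), ?_, W.filter (fun w => β w = c ∧ adj w x), ?_,
    x, ?_, h3, h1, ?_, ?_, ?_⟩
  · intro v hv
    rw [Finset.mem_filter] at hv ⊢
    exact ⟨Finset.mem_insert_of_mem (Finset.mem_union_right _ hv.1), by rw [hB' v hv.1]; exact hv.2.1⟩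
  · intro v hv
    rw [Finset.mem_filter] at hv ⊢
    exact ⟨Finset.mem_insert_of_mem (Finset.mem_union_left _ hv.1), by rw [hW v hv.1]; exact hv.2.1⟩
  · rw [Finset.mem_filter]
    exact ⟨Finset.mem_insert_self _ _, hx⟩
  · intro a ha w hw
    rw [Finset.mem_filter] at ha hw
    exact hBW a ha.1 w hw.1
  · intro w hw
    rw [Finset.mem_filter] at hw
    exact hw.2.2
  · intro a ha
    rw [Finset.mem_filter] at ha
    obtain ⟨w, hw⟩ := h1.nonempty
    rw [Finset.mem_filter] at hw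
    have hne : x ≠ a := by
      rintro rfl
      exact hasymm _ _ hw.2.2 (hBW x ha.1 w hw.1)
    exact (htour x a hne).2 ha.2.2

end Basic

end Pool.Agent.helper87_dom
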