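import Mathlib
import Pool.Agent.helper87_dom.Basic

/-!
# Iterated `for all sufficiently high sets` quantifiers
-/

set_option autoImplicit false

open Classical

namespace Pool.Agent.helper87_dom

section Game

variable {V : Type}

/-- `EA adj F k j P`: there is `X₁` of size at most `k` such that for all `B₁` in the family `F` dominating `X₁` there is
`X₂` such that for all `B₂` in `F` dominating `X₂` and so on (`j` rounds), `P (B₁ ∪ … ∪ B_j)` holds. -/
def EA (adj : V → V → Prop) (F : Finset V → Prop) (k : ℕ) : ℕ → (Finset V → Prop) → Prop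
  | 0, P => P ∅
  | (j + 1), P => ∃ X : Finset V, X.card ≤ k ∧ ∀ B, F B → (∀ b ∈ B, ∀ x ∈ X, adj b x) →
      EA adj F k j (fun W => P (B ∪ W))

variable {adj : V → V → Prop} {F : Finset V → Prop}

theorem EA.mono {k j : ℕ} : ∀ {P Q : Finset V → Prop}, EA adj F k j P → (∀ W, P W → Q W) → EA adj F k j Q := by
  induction j with
  | zero => intro P Q h hPQ; exact hPQ _ h
  | succ j ih =>
    intro P Q h hPQ
    obtain ⟨X, hX, h⟩ := h
    exact ⟨X, hX, fun B hB hBX => ih (h B hB hBX) (fun W hW => hPQ _ hW)⟩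

theorem EA.mono_k {k k' j : ℕ} (hk : k ≤ k') : ∀ {P : Finset V → Prop}, EA adj F k j P → EA adj F k' j P := by
  induction j with
  | zero => intro P h; exact h
  | succ j ih =>
    intro P h
    obtain ⟨X, hX, h⟩ := h
    exact ⟨X, hX.trans hk, fun B hB hBX => ih (h B hB hBX)⟩

theorem EA.of_forall {k j : ℕ} : ∀ {P : Finset V → Prop}, (∀ W, P W) → EA adj F k j P := by
  induction j with
  | zero => intro P h; exact h _
  | succ j ih =>
    intro P h
    exact ⟨∅, by simp, fun B _ _ => ih (fun W => h _)⟩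

theorem EA.and {k k' j : ℕ} : ∀ {P Q : Finset V → Prop}, EA adj F k j P → EA adj F k' j Q →
    EA adj F (k + k') j (fun W => P W ∧ Q W) := by
  induction j with
  | zero => intro P Q h h'; exact ⟨h, h'⟩
  | succ j ih =>
    intro P Q h h'
    obtain ⟨X, hX, h⟩ := h
    obtain ⟨X', hX', h'⟩ := h'
    refine ⟨X ∪ X', (Finset.card_union_le _ _).trans (Nat.add_le_add hX hX'), fun B hB hBX => ?_⟩
    exact ih (h B hB (fun b hb x hx => hBX b hb x (Finset.mem_union_left _ hx)))
      (h' B hB (fun b hb x hx => hBX b hb x (Finset.mem_union_right _ hx)))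

theorem EA.forall_finset {α : Type} {k j : ℕ} (T : Finset α) (P : α → Finset V → Prop)
    (h : ∀ τ ∈ T, EA adj F k j (P τ)) : EA adj F (T.card * k) j (fun W => ∀ τ ∈ T, P τ W) := by
  induction T using Finset.induction_on with
  | empty =>
    exact EA.of_forall (fun W τ hτ => absurd hτ (Finset.notMem_empty _))
  | insert a T ha ih =>
    rw [Finset.card_insert_of_notMem ha, Nat.add_mul, one_mul]
    have h1 := ih (fun τ hτ => h τ (Finset.mem_insert_of_mem hτ))
    have h2 := h a (Finset.mem_insert_self _ _)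
    refine (h1.and h2).mono ?_
    rintro W ⟨hW1, hW2⟩ τ hτ
    rcases Finset.mem_insert.1 hτ with rfl | hτ
    · exact hW2
    · exact hW1 τ hτ

theorem EA.card {k b : ℕ} (hF : ∀ B, F B → B.card ≤ b) (j : ℕ) :
    EA adj F k j (fun W => W.card ≤ j * b) := by
  induction j with
  | zero => simp [EA]
  | succ j ih =>
    refine ⟨∅, by simp, fun B hB _ => ih.mono (fun W hW => ?_)⟩
    refine (Finset.card_union_le _ _).trans ?_
    have := hF B hB
    rw [Nat.add_mul, one_mul]
    omega

theorem EA.and_card {k b : ℕ} (hF : ∀ B, F B → B.card ≤ b) {j : ℕ} {P : Finset V → Prop}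
    (h : EA adj F k j P) : EA adj F k j (fun W => P W ∧ W.card ≤ j * b) := by
  have h1 : EA adj F 0 j (fun W => W.card ≤ j * b) := EA.card hF j
  exact h.and h1

theorem EA.exists {k : ℕ} (hH : ∀ X : Finset V, X.card ≤ k → ∃ B, F B ∧ ∀ b ∈ B, ∀ x ∈ X, adj b x) {j : ℕ} :
    ∀ {P : Finset V → Prop}, EA adj F k j P → ∃ W, P W := by
  induction j with
  | zero => intro P h; exact ⟨∅, h⟩
  | succ j ih =>
    intro P h
    obtain ⟨X, hX, h⟩ := h
    obtain ⟨B, hB, hBX⟩ := hH X hX
    obtain ⟨W, hW⟩ := ih (h B hB hBX)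
    exact ⟨B ∪ W, hW⟩

end Game

end Pool.Agent.helper87_dom
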