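import Mathlib
import Pool.Agent.helper87_dom.Basic
import Pool.Agent.helper87_dom.Game

/-!
# The directedness lemma
-/

set_option autoImplicit false

open Classical

namespace Pool.Agent.helper87_dom

section Dir

variable {ι : Type}

/-- `adj` is the adjacency relation of a tournament. -/
def Tour {V : Type} (adj : V → V → Prop) : Prop :=
  (∀ u, ¬ adj u u) ∧ (∀ u v, u ≠ v → (adj u v ↔ ¬ adj v u))

/-- Every set of size at most `k` is dominated by a full set. -/
def Hyp {V : Type} (adj : V → V → Prop) (s : ι → ℕ) (b k : ℕ) : Prop :=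
  ∀ X : Finset V, X.card ≤ k → ∃ B, Full adj s b B ∧ ∀ u ∈ B, ∀ x ∈ X, adj u x

/-- `W` dominates `x` in a colour of `L`, for all `ℓ`-extendable colourings of `X0 ∪ W` which extend `β0`. -/
def Mset {V : Type} (adj : V → V → Prop) (s : ι → ℕ) (X0 : Finset V) (β0 : V → ι) (L : Finset ι) (ℓ : ℕ)
    (W : Finset V) (x : V) : Prop :=
  ∀ γ : V → ι, (∀ v ∈ X0, γ v = β0 v) → Ext adj s ℓ (X0 ∪ W) γ → ∃ c ∈ L, Dm adj s W γ x c

theorem Mset.level {V : Type} {adj : V → V → Prop} {s : ι → ℕ} {X0 : Finset V} {β0 : V → ι} {L : Finset ι}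
    {ℓ ℓ' : ℕ} {W : Finset V} {x : V} (h : Mset adj s X0 β0 L ℓ W x) (hl : ℓ ≤ ℓ') :
    Mset adj s X0 β0 L ℓ' W x :=
  fun γ h1 h2 => h γ h1 (h2.level hl)

/-- The inductive claim. -/
def ClaimAt (s : ι → ℕ) (b j m0 lm k lp : ℕ) : Prop :=
  ∀ (V : Type) [Fintype V] (adj : V → V → Prop), Tour adj → Hyp adj s b k →
    ∀ (L : Finset ι), L.card = j → ∀ (X0 U : Finset V) (β0 : V → ι), X0.card ≤ m0 →
    (∀ x ∈ U, ∀ β : V → ι, (∀ v ∈ X0, β v = β0 v) → Ext adj s lm (insert x X0) β → β x ∈ L) →
    EA adj (Full adj s b) k j (fun W => ∀ x ∈ U, Mset adj s X0 β0 L lp W x)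

theorem dir [Fintype ι] {s : ι → ℕ} {b j m0 lm k1 lp1 : ℕ}
    (IH : ClaimAt s b j (m0 + (j + 1) * b + b) lm k1 lp1)
    {V : Type} [Fintype V] {adj : V → V → Prop} (hT : Tour adj) {kk : ℕ}
    (hkk1 : (j + 1) * b + 1 ≤ kk)
    (hkk2 : (Fintype.card ι + 1) ^ (m0 + (j + 1) * b + b) * Fintype.card ι * k1 ≤ kk)
    (hH : Hyp adj s b k1)
    {L : Finset ι} (hL : L.card = j + 1) {X0 U : Finset V} {β0 : V → ι} (hX0 : X0.card ≤ m0)
    (hU : ∀ x ∈ U, ∀ β : V → ι, (∀ v ∈ X0, β v = β0 v) → Ext adj s lm (insert x X0) β → β x ∈ L)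
    {W : Finset V} (hW : W.card ≤ (j + 1) * b) (y : V) (ℓ : ℕ) :
    EA adj (Full adj s b) kk (j + 1) (fun W' => ∀ x ∈ U, (x = y ∨ Mset adj s X0 β0 L ℓ W x) →
      Mset adj s X0 β0 L ((j + 1) * b + (Fintype.card ι + 1) ^ ((j + 1) * b) * max ℓ lp1) W' x) := by
  have hLne : L.Nonempty := by
    rw [← Finset.card_pos, hL]; exact Nat.succ_pos _
  obtain ⟨c0, hc0⟩ := hLne
  refine ⟨insert y W, ?_, ?_⟩
  · exact (Finset.card_insert_le _ _).trans ((Nat.succ_le_succ hW).trans hkk1)
  intro B hB hBX
  have hBW : ∀ u ∈ B, ∀ w ∈ W, adj u w := fun u hu w hw => hBX u hu w (Finset.mem_insert_of_mem hw)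
  have hBy : ∀ u ∈ B, adj u y := fun u hu => hBX u hu y (Finset.mem_insert_self _ _)
  -- the base set for the inductive claim
  set X1 : Finset V := X0 ∪ W ∪ B with hX1
  have hX1card : X1.card ≤ m0 + (j + 1) * b + b := by
    refine (Finset.card_union_le _ _).trans (Nat.add_le_add ?_ hB.1)
    exact (Finset.card_union_le _ _).trans (Nat.add_le_add hX0 hW)
  let ext : (↥X1 → ι) → V → ι := fun ρ v => if hv : v ∈ X1 then ρ ⟨v, hv⟩ else c0
  have hext : ∀ (γ : V → ι), ∀ v ∈ X1, ext (fun u => γ u) v = γ v := by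
    intro γ v hv
    simp only [ext, dif_pos hv]
  let Uc : (↥X1 → ι) × ι → Finset V := fun τ => U.filter (fun x =>
    (∀ v ∈ X0, ext τ.1 v = β0 v) ∧ Dm adj s W (ext τ.1) x τ.2 ∧ ¬ Dm adj s B (ext τ.1) x τ.2)
  let Q : (↥X1 → ι) × ι → Finset V → Prop := fun τ W2 =>
    τ.2 ∈ L → ∀ x ∈ Uc τ, Mset adj s X1 (ext τ.1) (L.erase τ.2) lp1 W2 x
  have hQ : ∀ τ ∈ (Finset.univ : Finset ((↥X1 → ι) × ι)), EA adj (Full adj s b) k1 j (Q τ) := by
    rintro ⟨ρ, c⟩ -
    by_cases hc : c ∈ L
    · have hcard : (L.erase c).card = j := by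
        rw [Finset.card_erase_of_mem hc, hL]; rfl
      have := IH V adj hT hH (L.erase c) hcard X1 (Uc (ρ, c)) (ext ρ) hX1card ?_
      · exact this.mono (fun W2 hW2 _ => hW2)
      · intro x hx β hβ hβext
        simp only [Uc, Finset.mem_filter] at hx
        obtain ⟨hxU, hx1, hx2, hx3⟩ := hx
        rw [Finset.mem_erase]
        constructor
        · refine exclusion hT.1 hT.2 hB hBW hx2 hx3 ?_ ?_ (χ := β) ?_
          · intro v hv
            exact hβ v (Finset.mem_union_left _ (Finset.mem_union_right _ hv))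
          · intro v hv
            exact hβ v (Finset.mem_union_right _ hv)
          · apply hβext.good.mono
            apply Finset.insert_subset_insert
            intro v hv
            rcases Finset.mem_union.1 hv with h | h
            · exact Finset.mem_union_left _ (Finset.mem_union_right _ h)
            · exact Finset.mem_union_right _ h
        · refine hU x hxU β ?_ ?_
          · intro v hv
            rw [hβ v (Finset.mem_union_left _ (Finset.mem_union_left _ hv))]
            exact hx1 v hv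
          · apply hβext.restrict
            apply Finset.insert_subset_insert
            intro v hv
            exact Finset.mem_union_left _ (Finset.mem_union_left _ hv)
    · exact EA.of_forall (fun W2 h => absurd h hc)
  have hEA := EA.forall_finset _ _ hQ
  have hcardT : (Finset.univ : Finset ((↥X1 → ι) × ι)).card * k1 ≤ kk := by
    refine le_trans (Nat.mul_le_mul_right _ ?_) hkk2
    rw [Finset.card_univ, Fintype.card_prod, Fintype.card_fun, Fintype.card_coe]
    apply Nat.mul_le_mul_right
    calc (Fintype.card ι) ^ X1.card ≤ (Fintype.card ι + 1) ^ X1.card :=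
          Nat.pow_le_pow_left (Nat.le_succ _) _
      _ ≤ _ := Nat.pow_le_pow_right (Nat.succ_pos _) hX1card
  refine (EA.mono_k hcardT hEA).mono ?_
  intro W2 hW2 x hxU hxy γ hγ0 hγext
  -- facts on `γ`
  have hBgood : Good adj s B γ := by
    apply hγext.good.mono
    exact Finset.subset_union_left.trans Finset.subset_union_right
  rcases hxy with rfl | hxM
  · refine ⟨c0, hc0, ?_⟩
    have h := hB.2 γ hBgood c0 (fun v => adj v x)
    rcases h with h | h
    · exact Dm.mono (W := B) h Finset.subset_union_left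
    · obtain ⟨v, hv⟩ := h.nonempty
      rw [Finset.mem_filter] at hv
      exact absurd (hBy v hv.1) hv.2.2
  · obtain ⟨γ', hγ', hγ'ext⟩ := hγext.extend (Y := W) hW
    have hagree : ∀ v ∈ X0 ∪ (B ∪ W2), γ v = γ' v := fun v hv => (hγ' v hv).symm
    have h0 : ∀ v ∈ X0, γ' v = β0 v := by
      intro v hv
      rw [hγ' v (Finset.mem_union_left _ hv)]
      exact hγ0 v hv
    obtain ⟨c, hcL, hc⟩ := hxM γ' h0 ((hγ'ext.level (le_max_left _ _)).restrict (by
      intro v hv
      rcases Finset.mem_union.1 hv with h | h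
      · exact Finset.mem_union_left _ (Finset.mem_union_left _ h)
      · exact Finset.mem_union_right _ h))
    by_cases hcB : Dm adj s B γ' x c
    · refine ⟨c, hcL, ?_⟩
      refine (hcB.mono Finset.subset_union_left).congr ?_
      intro w hw
      exact hagree w (Finset.mem_union_right _ hw)
    · have hρ : ∀ v ∈ X1, ext (fun u : ↥X1 => γ' u) v = γ' v := hext γ'
      have hxUc : x ∈ Uc (fun u : ↥X1 => γ' u, c) := by
        simp only [Uc, Finset.mem_filter]
        refine ⟨hxU, ?_, ?_, ?_⟩
        · intro v hv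
          rw [hρ v (Finset.mem_union_left _ (Finset.mem_union_left _ hv))]
          exact h0 v hv
        · apply hc.congr
          intro w hw
          exact hρ w (Finset.mem_union_left _ (Finset.mem_union_right _ hw))
        · intro hcon
          apply hcB
          apply hcon.congr
          intro w hw
          exact (hρ w (Finset.mem_union_right _ hw)).symm
      have h2 := hW2 (fun u : ↥X1 => γ' u, c) (Finset.mem_univ _) hcL x hxUc γ'
        (fun v hv => (hρ v hv).symm) ((hγ'ext.level (le_max_right _ _)).restrict (by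
          intro v hv
          rcases Finset.mem_union.1 hv with h | h
          · rcases Finset.mem_union.1 h with h | h
            · rcases Finset.mem_union.1 h with h | h
              · exact Finset.mem_union_left _ (Finset.mem_union_left _ h)
              · exact Finset.mem_union_right _ h
            · exact Finset.mem_union_left _ (Finset.mem_union_right _ (Finset.mem_union_left _ h))
          · exact Finset.mem_union_left _ (Finset.mem_union_right _ (Finset.mem_union_right _ h))))
      obtain ⟨c', hc'L, hc'⟩ := h2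
      refine ⟨c', Finset.mem_of_mem_erase hc'L, ?_⟩
      refine (hc'.mono Finset.subset_union_right).congr ?_
      intro w hw
      exact hagree w (Finset.mem_union_right _ hw)

end Dir

end Pool.Agent.helper87_dom
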