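import Mathlib
import Pool.Agent.helper87_dom.Dir

/-!
# The inductive claim
-/

set_option autoImplicit false

open Classical

namespace Pool.Agent.helper87_dom

section Claim

variable {ι : Type}

/-- Among `n` consecutive levels, one is stable for the set `W`. -/
theorem exists_stable [Fintype ι] {s : ι → ℕ} {V : Type} [Fintype V] {adj : V → V → Prop}
    {L : Finset ι} {X0 W : Finset V} {β0 : V → ι} {e : ℕ} (hW : W.card ≤ e) (lev : ℕ → ℕ)
    (hlev : ∀ i, lev i ≤ lev (i + 1)) :
    ∃ i < (Fintype.card ι + 1) ^ e + 1, ∀ x, Mset adj s X0 β0 L (lev (i + 1)) W x →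
      Mset adj s X0 β0 L (lev i) W x := by
  by_contra hcon
  push Not at hcon
  let R : ℕ → Finset (↥W → ι) := fun i => Finset.univ.filter (fun ρ =>
    ∃ γ : V → ι, (∀ v ∈ X0, γ v = β0 v) ∧ Ext adj s (lev i) (X0 ∪ W) γ ∧ ∀ w : ↥W, γ w = ρ w)
  have hanti : ∀ i, R (i + 1) ⊆ R i := by
    intro i ρ hρ
    simp only [R, Finset.mem_filter, Finset.mem_univ, true_and] at hρ ⊢
    obtain ⟨γ, h1, h2, h3⟩ := hρ
    exact ⟨γ, h1, h2.level (hlev i), h3⟩
  have hne : ∀ i < (Fintype.card ι + 1) ^ e + 1, R (i + 1) ≠ R i := by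
    intro i hi heq
    obtain ⟨x, hx1, hx2⟩ := hcon i hi
    apply hx2
    intro γ hγ1 hγ2
    have hmem : (fun w : ↥W => γ w) ∈ R (i + 1) := by
      rw [heq]
      simp only [R, Finset.mem_filter, Finset.mem_univ, true_and]
      exact ⟨γ, hγ1, hγ2, fun w => rfl⟩
    simp only [R, Finset.mem_filter, Finset.mem_univ, true_and] at hmem
    obtain ⟨γ', h1, h2, h3⟩ := hmem
    obtain ⟨c, hc, hD⟩ := hx1 γ' h1 h2
    exact ⟨c, hc, hD.congr (fun w hw => (h3 ⟨w, hw⟩).symm)⟩
  have hcard : ∀ i ≤ (Fintype.card ι + 1) ^ e + 1, (R i).card + i ≤ (R 0).card := by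
    intro i hi
    induction i with
    | zero => simp
    | succ i ih =>
      have h1 := ih (by omega)
      have h2 : (R (i + 1)).card < (R i).card :=
        Finset.card_lt_card (Finset.ssubset_iff_subset_ne.2 ⟨hanti i, hne i (by omega)⟩)
      omega
  have h0 : (R 0).card ≤ (Fintype.card ι + 1) ^ e := by
    refine (Finset.card_le_univ _).trans ?_
    rw [Fintype.card_fun, Fintype.card_coe]
    calc (Fintype.card ι) ^ W.card ≤ (Fintype.card ι + 1) ^ W.card :=
          Nat.pow_le_pow_left (Nat.le_succ _) _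
      _ ≤ _ := Nat.pow_le_pow_right (Nat.succ_pos _) hW
  have := hcard _ le_rfl
  omega

theorem claim [Fintype ι] (s : ι → ℕ) (b j : ℕ) : ∀ m0 lm : ℕ, ∃ k lp : ℕ, ClaimAt s b j m0 lm k lp := by
  induction j with
  | zero =>
    intro m0 lm
    refine ⟨0, 1 + (Fintype.card ι + 1) ^ 1 * lm, ?_⟩
    intro V _ adj hT hH L hL X0 U β0 hX0 hU x hx γ hγ hγext
    exfalso
    have hL0 : L = ∅ := Finset.card_eq_zero.1 hL
    obtain ⟨β', h1, h2⟩ := hγext.extend (Y := {x}) (m := 1) (by simp)
    have h3 := hU x hx β' (fun v hv => (h1 v (Finset.mem_union_left _ hv)).trans (hγ v hv))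
      (h2.restrict (by
        intro v hv
        rcases Finset.mem_insert.1 hv with rfl | h
        · exact Finset.mem_union_right _ (Finset.mem_singleton_self _)
        · exact Finset.mem_union_left _ (Finset.mem_union_left _ h)))
    rw [hL0] at h3
    exact absurd h3 (Finset.notMem_empty _)
  | succ j ih =>
    intro m0 lm
    obtain ⟨k1, lp1, IH⟩ := ih (m0 + (j + 1) * b + b) lm
    -- constants
    set e : ℕ := (j + 1) * b with he
    set g : ℕ → ℕ := fun ℓ => e + (Fintype.card ι + 1) ^ e * max ℓ lp1 with hg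
    set lev : ℕ → ℕ := fun i => g^[i] 0 with hlevdef
    set n : ℕ := (Fintype.card ι + 1) ^ e + 1 with hn
    set kk : ℕ := (e + 1) + ((Fintype.card ι + 1) ^ (m0 + e + b) * Fintype.card ι * k1) with hkk
    have hgle : ∀ ℓ, ℓ ≤ g ℓ := by
      intro ℓ
      have h1 : ℓ ≤ max ℓ lp1 := le_max_left _ _
      have h2 : 1 * max ℓ lp1 ≤ (Fintype.card ι + 1) ^ e * max ℓ lp1 :=
        Nat.mul_le_mul_right _ (Nat.one_le_pow _ _ (Nat.succ_pos _))
      simp only [hg]
      omega
    have hlevsucc : ∀ i, lev (i + 1) = g (lev i) := by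
      intro i
      simp only [hlevdef, Function.iterate_succ_apply']
    have hlev : ∀ i, lev i ≤ lev (i + 1) := by
      intro i
      rw [hlevsucc]
      exact hgle _
    have hlevmono : Monotone lev := monotone_nat_of_le_succ hlev
    refine ⟨n * kk + k1 + kk, lev n, ?_⟩
    intro V _ adj hT hH L hL X0 U β0 hX0 hU
    have hF : ∀ B : Finset V, Full adj s b B → B.card ≤ b := fun B hB => hB.1
    have hHk1 : Hyp adj s b k1 := fun X hX => hH X (by omega)
    have hHnk : Hyp adj s b (n * kk) := fun X hX => hH X (by omega)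
    rcases Finset.eq_empty_or_nonempty U with hU0 | ⟨y0, hy0⟩
    · subst hU0
      exact EA.of_forall (fun W x hx => absurd hx (Finset.notMem_empty _))
    have hDir : ∀ W : Finset V, W.card ≤ e → ∀ (y : V) (ℓ : ℕ),
        EA adj (Full adj s b) kk (j + 1) (fun W' => ∀ x ∈ U, (x = y ∨ Mset adj s X0 β0 L ℓ W x) →
          Mset adj s X0 β0 L (g ℓ) W' x) := by
      intro W hW y ℓ
      exact dir IH hT (Nat.le_add_right _ _) (Nat.le_add_left _ _) hHk1 hL hX0 hU hW y ℓ
    -- stability
    let St : ℕ → Finset V → Prop := fun i W => ∀ x, Mset adj s X0 β0 L (lev (i + 1)) W x →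
      Mset adj s X0 β0 L (lev i) W x
    have hex : ∃ i < n, ¬ EA adj (Full adj s b) kk (j + 1) (fun W => ¬ St i W) := by
      by_contra hcon
      push Not at hcon
      have h1 : EA adj (Full adj s b) ((Finset.range n).card * kk) (j + 1)
          (fun W => ∀ i ∈ Finset.range n, ¬ St i W) :=
        EA.forall_finset _ _ (fun i hi => hcon i (Finset.mem_range.1 hi))
      rw [Finset.card_range] at h1
      obtain ⟨W, hW1, hW2⟩ := (h1.and_card hF).exists hHnk
      obtain ⟨i, hi, hst⟩ := exists_stable (adj := adj) (s := s) (L := L) (X0 := X0) (β0 := β0) hW2 lev hlev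
      exact hW1 i (Finset.mem_range.2 hi) hst
    obtain ⟨i, hi, hEA⟩ := hex
    have hpick : ∀ P : Finset V → Prop, EA adj (Full adj s b) kk (j + 1) P →
        ∃ W, P W ∧ W.card ≤ e ∧ St i W := by
      intro P hP
      by_contra hcon
      push Not at hcon
      apply hEA
      exact (hP.and_card hF).mono (fun W hW => hcon W hW.1 hW.2)
    let cand : Finset (Finset V) := Finset.univ.filter (fun W => W.card ≤ e ∧ St i W)
    have hcand : cand.Nonempty := by
      obtain ⟨W, -, h1, h2⟩ := hpick (fun _ => True) (EA.of_forall (fun _ => trivial))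
      exact ⟨W, by simp only [cand, Finset.mem_filter, Finset.mem_univ, true_and]; exact ⟨h1, h2⟩⟩
    obtain ⟨W, hWmem, hWmax⟩ := Finset.exists_max_image cand
      (fun W => (U.filter (fun x => Mset adj s X0 β0 L (lev i) W x)).card) hcand
    simp only [cand, Finset.mem_filter, Finset.mem_univ, true_and] at hWmem
    have hWall : ∀ x ∈ U, Mset adj s X0 β0 L (lev i) W x := by
      by_contra hcon
      push Not at hcon
      obtain ⟨y, hyU, hyW⟩ := hcon
      obtain ⟨W', hW'1, hW'2, hW'3⟩ := hpick _ (hDir W hWmem.1 y (lev i))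
      have hW'mem : W' ∈ cand := by
        simp only [cand, Finset.mem_filter, Finset.mem_univ, true_and]
        exact ⟨hW'2, hW'3⟩
      have hle := hWmax W' hW'mem
      have hlt : (U.filter (fun x => Mset adj s X0 β0 L (lev i) W x)).card <
          (U.filter (fun x => Mset adj s X0 β0 L (lev i) W' x)).card := by
        apply Finset.card_lt_card
        rw [Finset.ssubset_iff_of_subset]
        · refine ⟨y, ?_, ?_⟩
          · rw [Finset.mem_filter]
            refine ⟨hyU, hW'3 y ?_⟩
            rw [hlevsucc]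
            exact hW'1 y hyU (Or.inl rfl)
          · rw [Finset.mem_filter]
            exact fun h => hyW h.2
        · intro x hx
          rw [Finset.mem_filter] at hx ⊢
          refine ⟨hx.1, hW'3 x ?_⟩
          rw [hlevsucc]
          exact hW'1 x hx.1 (Or.inr hx.2)
      omega
    have hfin := hDir W hWmem.1 y0 (lev i)
    refine (EA.mono_k (k' := n * kk + k1 + kk) (by omega) hfin).mono ?_
    intro W' hW' x hx
    have h1 := hW' x hx (Or.inr (hWall x hx))
    rw [← hlevsucc] at h1
    exact h1.level (hlevmono (by omega))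

end Claim

end Pool.Agent.helper87_dom
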