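import Mathlib
import Pool.Agent.helper87_dom.Claim

/-!
# Every tournament of large domination number contains small subtournaments that are not colourable with
`S_t`-free colour classes
-/

set_option autoImplicit false

open Classical

namespace Pool.Agent.helper87_dom

section Main

/-- No set of fewer than `K` vertices dominates all other vertices. -/
def LargeDom {V : Type} (adj : V → V → Prop) (K : ℕ) : Prop :=
  ∀ D : Finset V, D.card < K → ∃ v, v ∉ D ∧ ∀ d ∈ D, ¬ adj d v

/-- The colour class `i` of the colouring `χ` on `B`. -/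
noncomputable def cls {V ι : Type} (χ : V → ι) (B : Finset V) (i : ι) : Finset V :=
  B.filter (fun v => χ v = i)

theorem mem_cls {V ι : Type} {χ : V → ι} {B : Finset V} {i : ι} {v : V} :
    v ∈ cls χ B i ↔ v ∈ B ∧ χ v = i := Finset.mem_filter

/-- `CH t`: every tournament of large domination number has a subset of bounded size such that every colouring of it
has, for some colour `i`, a copy of `S_(t i + 1)` in colour `i`. -/
def CH {ι : Type} (t : ι → ℕ) : Prop :=
  ∃ K b : ℕ, ∀ (V : Type) [Fintype V] (adj : V → V → Prop), Tour adj → LargeDom adj K →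
    ∃ B : Finset V, B.card ≤ b ∧ ∀ χ : V → ι, ∃ i, Cont adj (t i) (cls χ B i)

theorem Cont.of_subtype {V : Type} {adj : V → V → Prop} {A : Finset V} {t : ℕ} :
    ∀ {Y : Finset ↥A}, Cont (fun u v : ↥A => adj u v) t Y →
      Cont adj t (Y.map (Function.Embedding.subtype _)) := by
  induction t with
  | zero =>
    intro Y h
    exact (Finset.map_nonempty).2 h
  | succ t ih =>
    intro Y h
    obtain ⟨P, hP, Q, hQ, c, hc, h1, h2, h3, h4, h5⟩ := h
    refine ⟨P.map (Function.Embedding.subtype _), Finset.map_subset_map.2 hP,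
      Q.map (Function.Embedding.subtype _), Finset.map_subset_map.2 hQ, c,
      Finset.mem_map.2 ⟨c, hc, rfl⟩, ih h1, ih h2, ?_, ?_, ?_⟩
    · intro a ha b hb
      obtain ⟨a', ha', rfl⟩ := Finset.mem_map.1 ha
      obtain ⟨b', hb', rfl⟩ := Finset.mem_map.1 hb
      exact h3 a' ha' b' hb'
    · intro b hb
      obtain ⟨b', hb', rfl⟩ := Finset.mem_map.1 hb
      exact h4 b' hb'
    · intro a ha
      obtain ⟨a', ha', rfl⟩ := Finset.mem_map.1 ha
      exact h5 a' ha'

/-- The relative form of `CH`: inside a vertex set of large domination number. -/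
theorem CH.rel {ι : Type} {t : ι → ℕ} (h : CH t) : ∃ K b : ℕ, ∀ (V : Type) (adj : V → V → Prop),
    Tour adj → ∀ A : Finset V, (∀ D ⊆ A, D.card < K → ∃ v ∈ A, v ∉ D ∧ ∀ d ∈ D, ¬ adj d v) →
    ∃ B ⊆ A, B.card ≤ b ∧ ∀ χ : V → ι, ∃ i, Cont adj (t i) (cls χ B i) := by
  obtain ⟨K, b, h⟩ := h
  refine ⟨K, b, ?_⟩
  intro V adj hT A hA
  have hT' : Tour (fun u v : ↥A => adj u v) :=
    ⟨fun u => hT.1 u, fun u v huv => hT.2 u v (fun h => huv (Subtype.ext h))⟩
  have hD : LargeDom (fun u v : ↥A => adj u v) K := by
    intro D hD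
    obtain ⟨v, hvA, hv1, hv2⟩ := hA (D.map (Function.Embedding.subtype _)) (by
      intro v hv
      obtain ⟨v', hv', rfl⟩ := Finset.mem_map.1 hv
      exact v'.2) (by rw [Finset.card_map]; exact hD)
    refine ⟨⟨v, hvA⟩, ?_, ?_⟩
    · intro hmem
      exact hv1 (Finset.mem_map.2 ⟨⟨v, hvA⟩, hmem, rfl⟩)
    · intro d hd
      exact hv2 d (Finset.mem_map.2 ⟨d, hd, rfl⟩)
  obtain ⟨B, hB1, hB2⟩ := h ↥A _ hT' hD
  refine ⟨B.map (Function.Embedding.subtype _), ?_, ?_, ?_⟩
  · intro v hv
    obtain ⟨v', hv', rfl⟩ := Finset.mem_map.1 hv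
    exact v'.2
  · rw [Finset.card_map]; exact hB1
  · intro χ
    obtain ⟨i, hi⟩ := hB2 (fun v => χ v)
    refine ⟨i, (Cont.of_subtype hi).mono ?_⟩
    intro v hv
    obtain ⟨v', hv', rfl⟩ := Finset.mem_map.1 hv
    rw [mem_cls] at hv' ⊢
    exact ⟨Finset.mem_map.2 ⟨v', hv'.1, rfl⟩, hv'.2⟩

/-- The set of vertices that dominate `X` completely has large domination number. -/
theorem high_large {V : Type} [Fintype V] {adj : V → V → Prop} {K k : ℕ}
    (hD : LargeDom adj (K + k)) {X : Finset V} (hX : X.card ≤ k) :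
    ∀ D ⊆ Finset.univ.filter (fun v => v ∉ X ∧ ∀ x ∈ X, ¬ adj x v), D.card < K →
      ∃ v ∈ Finset.univ.filter (fun v => v ∉ X ∧ ∀ x ∈ X, ¬ adj x v), v ∉ D ∧ ∀ d ∈ D, ¬ adj d v := by
  intro D _ hDK
  obtain ⟨v, hv1, hv2⟩ := hD (D ∪ X) (by
    have := Finset.card_union_le D X
    omega)
  refine ⟨v, ?_, ?_, ?_⟩
  · rw [Finset.mem_filter]
    exact ⟨Finset.mem_univ _, fun h => hv1 (Finset.mem_union_right _ h),
      fun x hx => hv2 x (Finset.mem_union_right _ hx)⟩
  · exact fun h => hv1 (Finset.mem_union_left _ h)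
  · exact fun d hd => hv2 d (Finset.mem_union_left _ hd)

/-- The main step: from the smaller colour lists to the given one. -/
theorem step {ι : Type} [Fintype ι] [Nonempty ι] (s : ι → ℕ)
    (h : ∀ i : ι, CH (fun o : Option ι => o.elim (s i) (fun j => if j = i then s i else s j + 1))) :
    CH (fun i => s i + 1) := by
  have h' := fun i => (h i).rel
  choose K b hKb using h'
  set q := Fintype.card ι with hq
  set bb : ℕ := ∑ i, b i with hbb
  set KK : ℕ := ∑ i, K i with hKK
  obtain ⟨k, lp, hclaim⟩ := claim s bb q 0 0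
  set kk : ℕ := k + q * bb + 1 with hkk
  refine ⟨KK + kk, q * bb + (q + 1) ^ (q * bb) * lp, ?_⟩
  intro V _ adj hT hD
  by_contra hcon
  push Not at hcon
  have hF : ∀ B : Finset V, Full adj s bb B → B.card ≤ bb := fun B hB => hB.1
  -- all small sets have good colourings
  have hgood : ∀ B : Finset V, B.card ≤ q * bb + (q + 1) ^ (q * bb) * lp →
      ∃ χ : V → ι, Good adj s B χ := by
    intro B hB
    obtain ⟨χ, hχ⟩ := hcon B hB
    exact ⟨χ, fun i => hχ i⟩
  -- full sets dominate all sets of size at most `kk`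
  have hH : Hyp adj s bb kk := by
    intro X hX
    have hex : ∀ i, ∃ B ⊆ Finset.univ.filter (fun v => v ∉ X ∧ ∀ x ∈ X, ¬ adj x v), B.card ≤ b i ∧
        ∀ χ : V → Option ι, ∃ o : Option ι,
          Cont adj (o.elim (s i) (fun j => if j = i then s i else s j + 1)) (cls χ B o) := by
      intro i
      apply hKb i V adj hT
      apply high_large
      · intro D hD'
        apply hD D
        exact hD'.trans_le (Nat.add_le_add_right (Finset.single_le_sum (fun _ _ => Nat.zero_le _)
          (Finset.mem_univ i)) _)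
      · exact hX
    choose B hB1 hB2 hB3 using hex
    refine ⟨Finset.univ.biUnion B, ⟨?_, ?_⟩, ?_⟩
    · refine Finset.card_biUnion_le.trans ?_
      exact Finset.sum_le_sum (fun i _ => hB2 i)
    · intro χ hχ i p
      by_contra hnot
      push Not at hnot
      obtain ⟨hn1, hn2⟩ := hnot
      have hsub : B i ⊆ Finset.univ.biUnion B := Finset.subset_biUnion_of_mem B (Finset.mem_univ i)
      obtain ⟨o, ho⟩ := hB3 i (fun v => if χ v = i ∧ p v then none else some (χ v))
      rcases o with _ | j
      · apply hn1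
        apply Cont.mono ho
        intro v hv
        rw [mem_cls] at hv
        rw [Finset.mem_filter]
        refine ⟨hsub hv.1, ?_⟩
        by_contra hc
        rw [if_neg hc] at hv
        exact absurd hv.2 (by simp)
      · by_cases hji : j = i
        · subst hji
          simp only [Option.elim_some, if_true] at ho
          apply hn2
          apply Cont.mono ho
          intro v hv
          rw [mem_cls] at hv
          rw [Finset.mem_filter]
          refine ⟨hsub hv.1, ?_⟩
          by_cases hc : χ v = j ∧ p v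
          · rw [if_pos hc] at hv
            exact absurd hv.2 (by simp)
          · rw [if_neg hc] at hv
            have hvj : χ v = j := by simpa using hv.2
            exact ⟨hvj, fun hp => hc ⟨hvj, hp⟩⟩
        · simp only [Option.elim_some, if_neg hji] at ho
          apply hχ j
          apply Cont.mono ho
          intro v hv
          rw [mem_cls] at hv
          rw [Finset.mem_filter]
          refine ⟨hsub hv.1, ?_⟩
          by_cases hc : χ v = i ∧ p v
          · rw [if_pos hc] at hv
            exact absurd hv.2 (by simp)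
          · rw [if_neg hc] at hv
            simpa using hv.2
    · intro u hu x hx
      obtain ⟨i, -, hui⟩ := Finset.mem_biUnion.1 hu
      have := hB1 i hui
      rw [Finset.mem_filter] at this
      have hne : u ≠ x := by
        rintro rfl
        exact this.2.1 hx
      exact (hT.2 u x hne).2 (this.2.2 x hx)
  have hEA := hclaim V adj hT (fun X hX => hH X (by omega)) Finset.univ (by rw [hq, Finset.card_univ])
    ∅ Finset.univ (fun _ => Classical.arbitrary ι) (by simp) (fun x _ β _ _ => Finset.mem_univ _)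
  obtain ⟨W, hW1, hW2⟩ := (hEA.and_card hF).exists (fun X hX => hH X (by omega))
  have hext0 : Ext adj s (q * bb + (q + 1) ^ (q * bb) * lp) (∅ : Finset V)
      (fun _ => Classical.arbitrary ι) := by
    intro Y hY
    obtain ⟨χ, hχ⟩ := hgood Y hY
    exact ⟨χ, fun v hv => absurd hv (Finset.notMem_empty _), by simpa using hχ⟩
  obtain ⟨γ, -, hγ⟩ := hext0.extend (Y := W) hW2
  obtain ⟨x, hx1, hx2⟩ := hD W (by omega)
  obtain ⟨c, -, hc⟩ := hW1 x (Finset.mem_univ _) γ (fun v hv => absurd hv (Finset.notMem_empty _)) hγ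
  obtain ⟨w, hw⟩ := hc.nonempty
  rw [Finset.mem_filter] at hw
  exact hx2 w hw.1 hw.2.2

theorem main_aux (N : ℕ) : ∀ (ι : Type) [Fintype ι] (t : ι → ℕ), ∑ i, 3 ^ t i = N → CH t := by
  induction N using Nat.strong_induction_on with
  | _ N IH =>
    intro ι _ t hN
    rcases isEmpty_or_nonempty ι with hempty | hne
    · refine ⟨1, 1, ?_⟩
      intro V _ adj hT hD
      obtain ⟨v, -, -⟩ := hD ∅ (by simp)
      exact ⟨∅, by simp, fun χ => (hempty.false (χ v)).elim⟩
    by_cases h0 : ∃ i, t i = 0
    · obtain ⟨i0, hi0⟩ := h0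
      have hlt : ∑ i : {i // i ≠ i0}, 3 ^ t i < N := by
        rw [← hN, Fintype.sum_eq_add_sum_subtype_ne (fun i => 3 ^ t i) i0]
        have : 0 < 3 ^ t i0 := by positivity
        omega
      obtain ⟨K, b, hKb⟩ := IH _ hlt {i // i ≠ i0} (fun i => t i) rfl
      refine ⟨K + 1, b + 1, ?_⟩
      intro V _ adj hT hD
      obtain ⟨B, hB1, hB2⟩ := hKb V adj hT (fun D hD' => hD D (by omega))
      obtain ⟨v0, -, -⟩ := hD ∅ (by simp)
      refine ⟨insert v0 B, (Finset.card_insert_le _ _).trans (Nat.succ_le_succ hB1), ?_⟩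
      intro χ
      by_cases hex : ∃ v ∈ insert v0 B, χ v = i0
      · obtain ⟨v, hv, hvi⟩ := hex
        refine ⟨i0, ?_⟩
        rw [hi0]
        exact ⟨v, mem_cls.2 ⟨hv, hvi⟩⟩
      · push Not at hex
        have hv0 : χ v0 ≠ i0 := hex v0 (Finset.mem_insert_self _ _)
        obtain ⟨i, hi⟩ := hB2 (fun v => if h : χ v ≠ i0 then ⟨χ v, h⟩ else ⟨χ v0, hv0⟩)
        refine ⟨i, Cont.mono hi ?_⟩
        intro v hv
        rw [mem_cls] at hv ⊢
        refine ⟨Finset.mem_insert_of_mem hv.1, ?_⟩
        have hv' : χ v ≠ i0 := hex v (Finset.mem_insert_of_mem hv.1)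
        have := hv.2
        rw [dif_pos hv'] at this
        rw [← this]
    · push Not at h0
      have ht : t = fun i => (t i - 1) + 1 := by
        funext i
        have := h0 i
        omega
      rw [ht]
      apply step (fun i => t i - 1)
      intro i
      refine IH _ ?_ (Option ι) _ rfl
      rw [← hN, Fintype.sum_option, Fintype.sum_eq_add_sum_subtype_ne (fun i => 3 ^ t i) i,
        Fintype.sum_eq_add_sum_subtype_ne (fun j => 3 ^ (Option.elim (some j) (t i - 1)
          (fun j => if j = i then t i - 1 else t j - 1 + 1))) i]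
      have h1 : ∀ j : {j // j ≠ i}, 3 ^ (Option.elim (some (j : ι)) (t i - 1)
          (fun j => if j = i then t i - 1 else t j - 1 + 1)) = 3 ^ t j := by
        intro j
        simp only [Option.elim_some, if_neg j.2]
        have := h0 j
        congr 1
        omega
      rw [Finset.sum_congr rfl (fun j _ => h1 j)]
      simp only [Option.elim_none, Option.elim_some, if_true]
      have h2 : 3 ^ t i = 3 * 3 ^ (t i - 1) := by
        have := h0 i
        rw [← pow_succ']
        congr 1
        omega
      have h3 : 0 < 3 ^ (t i - 1) := by positivity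
      omega

end Main

end Pool.Agent.helper87_dom
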