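import Mathlib
import Pool.Agent.helper87_dom.Main

/-!
# Finite tournaments, rebels, and the potential argument

`Delta A B C` is the disjoint union of `A`, `B`, `C` with all arcs from `A` to `B`, from `B` to `C` and from `C` to `A`.
-/

set_option autoImplicit false

open Classical

namespace Pool.Agent.helper87_dom

/-- A finite tournament: `adj u v` says that there is an arc from `u` to `v`. -/
structure Tournament where
  /-- the vertex set -/
  V : Type
  /-- the vertex set is finite -/
  fin : Fintype V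
  /-- the arcs -/
  adj : V → V → Prop
  irrefl : ∀ u, ¬ adj u u
  total : ∀ u v, u ≠ v → (adj u v ↔ ¬ adj v u)

instance (G : Tournament) : Fintype G.V := G.fin

/-- `G` has a subtournament isomorphic to `H`. -/
def Contains (G H : Tournament) : Prop :=
  ∃ f : H.V → G.V, Function.Injective f ∧ ∀ u v, H.adj u v ↔ G.adj (f u) (f v)

/-- `H` is a rebel: the `H`-free tournaments have bounded domination number. -/
def Rebel (H : Tournament) : Prop :=
  ∃ c : ℕ, ∀ G : Tournament, ¬ Contains G H →
    ∃ D : Finset G.V, D.card ≤ c ∧ ∀ z, z ∉ D → ∃ d ∈ D, G.adj d z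

/-- The arcs of `Delta A B C`. -/
def deltaAdj (A B C : Tournament) : (A.V ⊕ B.V) ⊕ C.V → (A.V ⊕ B.V) ⊕ C.V → Prop
  | .inl (.inl a), .inl (.inl a') => A.adj a a'
  | .inl (.inl _), .inl (.inr _) => True
  | .inl (.inl _), .inr _ => False
  | .inl (.inr _), .inl (.inl _) => False
  | .inl (.inr b), .inl (.inr b') => B.adj b b'
  | .inl (.inr _), .inr _ => True
  | .inr _, .inl (.inl _) => True
  | .inr _, .inl (.inr _) => False
  | .inr c, .inr c' => C.adj c c'

/-- `Delta A B C`: disjoint copies of `A`, `B` and `C` with all arcs from `A` to `B`, from `B` to `C` and from `C`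
to `A`. -/
def Delta (A B C : Tournament) : Tournament where
  V := (A.V ⊕ B.V) ⊕ C.V
  fin := inferInstance
  adj := deltaAdj A B C
  irrefl := by
    rintro ((a | b) | c)
    · exact A.irrefl a
    · exact B.irrefl b
    · exact C.irrefl c
  total := by
    rintro ((a | b) | c) ((a' | b') | c') h
    · exact A.total a a' (fun e => h (by rw [e]))
    · simp [deltaAdj]
    · simp [deltaAdj]
    · simp [deltaAdj]
    · exact B.total b b' (fun e => h (by rw [e]))
    · simp [deltaAdj]
    · simp [deltaAdj]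
    · simp [deltaAdj]
    · exact C.total c c' (fun e => h (by rw [e]))

/-- The transitive tournament with `k` vertices. -/
def TT (k : ℕ) : Tournament where
  V := Fin k
  fin := inferInstance
  adj := fun i j => i < j
  irrefl := fun i => lt_irrefl i
  total := fun _ _ h => ⟨fun h1 => not_lt.2 h1.le, fun h1 => lt_of_le_of_ne (not_lt.1 h1) h⟩

/-- `S t` is the tournament `S_(t+1)`: `S_1` has one vertex and `S_(t+1) = Δ(S_t, S_t, 1)`. -/
def S : ℕ → Tournament
  | 0 => TT 1
  | t + 1 => Delta (S t) (S t) (TT 1)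

/-- The vertex set `Y` of `G` contains a copy of `H`. -/
def Into (G H : Tournament) (Y : Finset G.V) : Prop :=
  ∃ f : H.V → G.V, (∀ u, f u ∈ Y) ∧ ∀ u v, H.adj u v → G.adj (f u) (f v)

theorem Into.mono {G H : Tournament} {Y Z : Finset G.V} (h : Into G H Y) (hYZ : Y ⊆ Z) : Into G H Z := by
  obtain ⟨f, h1, h2⟩ := h
  exact ⟨f, fun u => hYZ (h1 u), h2⟩

theorem Into.nonempty {G H : Tournament} [hH : Nonempty H.V] {Y : Finset G.V} (h : Into G H Y) : Y.Nonempty := by
  obtain ⟨f, h1, -⟩ := h
  exact ⟨f (Classical.arbitrary _), h1 _⟩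

theorem tour (G : Tournament) : Tour G.adj := ⟨G.irrefl, G.total⟩

theorem asymm (G : Tournament) (u v : G.V) (huv : G.adj u v) : ¬ G.adj v u := by
  intro hvu
  by_cases h : u = v
  · subst h; exact G.irrefl _ huv
  · exact (G.total u v h).1 huv hvu

theorem Into.contains {G H : Tournament} {Y : Finset G.V} (h : Into G H Y) : Contains G H := by
  obtain ⟨f, -, h2⟩ := h
  have hinj : Function.Injective f := by
    intro u v huv
    by_contra hne
    by_cases hadj : H.adj u v
    · have := h2 u v hadj
      rw [huv] at this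
      exact G.irrefl _ this
    · have := h2 v u ((H.total v u (fun e => hne e.symm)).2 hadj)
      rw [huv] at this
      exact G.irrefl _ this
  refine ⟨f, hinj, fun u v => ⟨h2 u v, fun hG => ?_⟩⟩
  by_contra hadj
  by_cases huv : u = v
  · subst huv
    exact G.irrefl _ hG
  · exact asymm G _ _ hG (h2 v u ((H.total v u (fun e => huv e.symm)).2 hadj))

theorem Into.delta {G H1 H2 H3 : Tournament} {A B C Y : Finset G.V} (hA : Into G H1 A) (hB : Into G H2 B)
    (hC : Into G H3 C) (hAY : A ⊆ Y) (hBY : B ⊆ Y) (hCY : C ⊆ Y) (h1 : ∀ a ∈ A, ∀ b ∈ B, G.adj a b)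
    (h2 : ∀ b ∈ B, ∀ c ∈ C, G.adj b c) (h3 : ∀ c ∈ C, ∀ a ∈ A, G.adj c a) : Into G (Delta H1 H2 H3) Y := by
  obtain ⟨f, f1, f2⟩ := hA
  obtain ⟨g, g1, g2⟩ := hB
  obtain ⟨k, k1, k2⟩ := hC
  refine ⟨Sum.elim (Sum.elim f g) k, ?_, ?_⟩
  · rintro ((a | b) | c)
    · exact hAY (f1 a)
    · exact hBY (g1 b)
    · exact hCY (k1 c)
  · rintro ((a | b) | c) ((a' | b') | c') h
    · exact f2 a a' h
    · exact h1 _ (f1 a) _ (g1 b')
    · exact h.elim
    · exact h.elim
    · exact g2 b b' h
    · exact h2 _ (g1 b) _ (k1 c')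
    · exact h3 _ (k1 c) _ (f1 a')
    · exact h.elim
    · exact k2 c c' h

theorem into_TT_iff {G : Tournament} {k : ℕ} {Y : Finset G.V} : Into G (TT k) Y ↔
    ∃ f : Fin k → G.V, (∀ i, f i ∈ Y) ∧ ∀ i j : Fin k, i < j → G.adj (f i) (f j) := Iff.rfl

theorem into_point {G : Tournament} {Y : Finset G.V} {y : G.V} (hy : y ∈ Y) : Into G (TT 1) Y := by
  refine into_TT_iff.2 ⟨fun _ => y, fun _ => hy, ?_⟩
  intro u v huv
  exact absurd huv (by rw [Subsingleton.elim u v]; exact lt_irrefl _)

theorem into_S {G : Tournament} (t : ℕ) : ∀ Y : Finset G.V, Cont G.adj t Y → Into G (S t) Y := by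
  induction t with
  | zero =>
    intro Y hY
    obtain ⟨y, hy⟩ := hY
    exact into_point hy
  | succ t ih =>
    intro Y hY
    obtain ⟨A, hA, B, hB, c, hc, h1, h2, h3, h4, h5⟩ := hY
    refine Into.delta (C := {c}) (ih A h1) (ih B h2) (into_point (Finset.mem_singleton_self c)) hA hB
      (Finset.singleton_subset_iff.2 hc) h3 ?_ ?_
    · intro b hb c' hc'
      rw [Finset.mem_singleton.1 hc']
      exact h4 b hb
    · intro c' hc' a ha
      rw [Finset.mem_singleton.1 hc']
      exact h5 a ha

/-- Every set of `2 ^ k` vertices of a tournament contains the transitive tournament with `k` vertices. -/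
theorem into_TT (G : Tournament) (k : ℕ) : ∀ X : Finset G.V, 2 ^ k ≤ X.card → Into G (TT k) X := by
  induction k with
  | zero =>
    intro X _
    exact into_TT_iff.2 ⟨fun i => i.elim0, fun i => i.elim0, fun i => i.elim0⟩
  | succ k ih =>
    intro X hX
    have hne : X.Nonempty := by
      rw [← Finset.card_pos]
      exact lt_of_lt_of_le (by positivity) hX
    obtain ⟨v, hv⟩ := hne
    have hsplit := Finset.card_filter_add_card_filter_not (s := X.erase v) (fun u => G.adj v u)
    rw [Finset.card_erase_of_mem hv] at hsplit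
    have hpow : 2 ^ (k + 1) = 2 * 2 ^ k := by ring
    by_cases hside : 2 ^ k ≤ ((X.erase v).filter (fun u => G.adj v u)).card
    · obtain ⟨f, hf, hf2⟩ := into_TT_iff.1 (ih _ hside)
      refine into_TT_iff.2 ⟨Fin.cons (α := fun _ => G.V) v f, ?_, ?_⟩
      · intro i
        refine Fin.cases ?_ (fun i => ?_) i
        · exact hv
        · exact Finset.mem_of_mem_erase (Finset.mem_filter.1 (hf i)).1
      · intro i j
        refine Fin.cases ?_ (fun j => ?_) j
        · intro hij
          exact absurd hij (Fin.not_lt_zero i)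
        · refine Fin.cases ?_ (fun i => ?_) i
          · intro _
            exact (Finset.mem_filter.1 (hf j)).2
          · intro hij
            exact hf2 i j (Fin.succ_lt_succ_iff.1 hij)
    · have hside' : 2 ^ k ≤ ((X.erase v).filter (fun u => ¬ G.adj v u)).card := by omega
      obtain ⟨f, hf, hf2⟩ := into_TT_iff.1 (ih _ hside')
      refine into_TT_iff.2 ⟨Fin.snoc (α := fun _ => G.V) f v, ?_, ?_⟩
      · intro i
        refine Fin.lastCases ?_ (fun i => ?_) i
        · rw [Fin.snoc_last]; exact hv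
        · rw [Fin.snoc_castSucc]
          exact Finset.mem_of_mem_erase (Finset.mem_filter.1 (hf i)).1
      · intro i j
        refine Fin.lastCases ?_ (fun i => ?_) i
        · intro hij
          exact absurd hij (not_lt.2 (Fin.le_last j))
        · refine Fin.lastCases ?_ (fun j => ?_) j
          · intro _
            rw [Fin.snoc_last, Fin.snoc_castSucc]
            have h1 := Finset.mem_filter.1 (hf i)
            exact (G.total _ _ (Finset.ne_of_mem_erase h1.1)).2 h1.2
          · intro hij
            rw [Fin.snoc_castSucc, Fin.snoc_castSucc]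
            exact hf2 i j (Fin.castSucc_lt_castSucc_iff.1 hij)

/-- A set of at most `b` vertices such that every partition of it into two sets has `H1` in the first or `H2` in
the second. -/
def Arr (G H1 H2 : Tournament) (b : ℕ) (B : Finset G.V) : Prop :=
  B.card ≤ b ∧ ∀ p : G.V → Prop, Into G H1 (B.filter p) ∨ Into G H2 (B.filter (fun v => ¬ p v))

/-- The tournaments of large domination number contain bounded sets as in `Arr`, also outside of the part dominated by
a set of bounded size. -/
def HasArr (H1 H2 : Tournament) : Prop :=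
  ∃ K b : ℕ, ∀ (G : Tournament) (k : ℕ) (X : Finset G.V), X.card ≤ k → LargeDom G.adj (K + k) →
    ∃ B, Arr G H1 H2 b B ∧ ∀ u ∈ B, ∀ x ∈ X, G.adj u x

/-- **The potential argument.** -/
theorem rebel_of_hasArr {H1 H2 : Tournament} [Nonempty H1.V] [Nonempty H2.V] (h : HasArr H1 H2) (k : ℕ) :
    Rebel (Delta H1 H2 (TT k)) := by
  obtain ⟨K0, b, hwit⟩ := h
  set M : ℕ := 2 ^ b * 2 ^ b * 2 ^ k with hM
  refine ⟨K0 + (b + (M + 1)), ?_⟩
  intro G hfree
  by_contra hD
  replace hD : LargeDom G.adj (K0 + (b + (M + 1))) := by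
    intro D hDc
    by_contra hno
    push Not at hno
    exact hD ⟨D, hDc.le, hno⟩
  -- the potential
  let N : Finset G.V → Finset G.V :=
    fun B => Finset.univ.filter (fun x => Into G H2 (B.filter (fun v => G.adj v x)))
  have hmemN : ∀ B x, x ∈ N B ↔ Into G H2 (B.filter (fun v => G.adj v x)) := by
    intro B x
    simp only [N, Finset.mem_filter, Finset.mem_univ, true_and]
  obtain ⟨B1, hB1, -⟩ := hwit G (b + (M + 1)) ∅ (by simp) hD
  obtain ⟨B0, hB0, hmax⟩ := Finset.exists_max_image
    (Finset.univ.filter (fun B : Finset G.V => Arr G H1 H2 b B)) (fun B => (N B).card)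
    ⟨B1, Finset.mem_filter.2 ⟨Finset.mem_univ _, hB1⟩⟩
  replace hB0 : Arr G H1 H2 b B0 := (Finset.mem_filter.1 hB0).2
  -- many vertices dominate `B0` completely
  have hW : ∃ W : Finset G.V, W.card = M + 1 ∧ ∀ w ∈ W, w ∉ B0 ∧ ∀ x ∈ B0, ¬ G.adj x w := by
    have hle : M + 1 ≤ (Finset.univ.filter (fun w => w ∉ B0 ∧ ∀ x ∈ B0, ¬ G.adj x w)).card := by
      by_contra hlt
      push Not at hlt
      obtain ⟨v, hv1, hv2⟩ := hD
        (B0 ∪ Finset.univ.filter (fun w => w ∉ B0 ∧ ∀ x ∈ B0, ¬ G.adj x w)) (by
          have h1 := Finset.card_union_le B0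
            (Finset.univ.filter (fun w => w ∉ B0 ∧ ∀ x ∈ B0, ¬ G.adj x w))
          have h2 := hB0.1
          omega)
      apply hv1
      refine Finset.mem_union_right _ (Finset.mem_filter.2 ⟨Finset.mem_univ _, ?_, ?_⟩)
      · exact fun h => hv1 (Finset.mem_union_left _ h)
      · exact fun x hx => hv2 x (Finset.mem_union_left _ hx)
    obtain ⟨W, hW1, hW2⟩ := Finset.exists_subset_card_eq hle
    exact ⟨W, hW2, fun w hw => (Finset.mem_filter.1 (hW1 hw)).2⟩
  obtain ⟨W, hWc, hW⟩ := hW
  obtain ⟨B', hB', hdom⟩ := hwit G (b + (M + 1)) (B0 ∪ W) (by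
    have h1 := Finset.card_union_le B0 W
    have h2 := hB0.1
    omega) hD
  have hB'0 : ∀ u ∈ B', ∀ x ∈ B0, G.adj u x := fun u hu x hx => hdom u hu x (Finset.mem_union_left _ hx)
  have hB'W : ∀ u ∈ B', ∀ x ∈ W, G.adj u x := fun u hu x hx => hdom u hu x (Finset.mem_union_right _ hx)
  have hfull : Into G H2 B' := by
    have key : ∀ p : G.V → Prop, (∀ v, ¬ p v) → Into G H2 B' := by
      intro p hp
      rcases hB'.2 p with h | h
      · obtain ⟨y, hy⟩ := h.nonempty
        exact absurd (Finset.mem_filter.1 hy).2 (hp y)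
      · exact h.mono (Finset.filter_subset _ _)
    exact key (fun _ => False) (fun _ => id)
  -- the new set gains `W`
  have hWN : W ⊆ N B' := by
    intro w hw
    rw [hmemN]
    refine hfull.mono (fun u hu => Finset.mem_filter.2 ⟨hu, hB'W u hu w hw⟩)
  have hWdisj : Disjoint (N B0) W := by
    rw [Finset.disjoint_left]
    intro w hw1 hw2
    rw [hmemN] at hw1
    obtain ⟨y, hy⟩ := hw1.nonempty
    rw [Finset.mem_filter] at hy
    exact (hW w hw2).2 y hy.1 hy.2
  -- and loses only a bounded number of vertices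
  set E : Finset G.V := N B0 \ N B' with hE
  have hEp : ∀ x ∈ E, Into G H1 (B'.filter (fun v => G.adj x v)) ∧
      Into G H2 (B0.filter (fun v => G.adj v x)) := by
    intro x hx
    rw [hE, Finset.mem_sdiff, hmemN, hmemN] at hx
    refine ⟨?_, hx.1⟩
    rcases hB'.2 (fun v => G.adj x v) with h | h
    · exact h
    · exfalso
      apply hx.2
      refine h.mono (fun v hv => ?_)
      rw [Finset.mem_filter] at hv ⊢
      refine ⟨hv.1, ?_⟩
      have hne : v ≠ x := by
        rintro rfl
        obtain ⟨y, hy⟩ := hx.1.nonempty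
        rw [Finset.mem_filter] at hy
        exact asymm G _ _ hy.2 (hB'0 v hv.1 y hy.1)
      exact (G.total v x hne).2 hv.2
  have hEc : E.card ≤ M := by
    by_contra hlt
    push Not at hlt
    obtain ⟨y, -, hy⟩ := Finset.exists_le_card_fiber_of_mul_le_card_of_maps_to
      (s := E) (t := B'.powerset ×ˢ B0.powerset)
      (f := fun x => (B'.filter (fun v => G.adj x v), B0.filter (fun v => G.adj v x))) (n := 2 ^ k)
      (fun x _ => Finset.mem_product.2 ⟨Finset.mem_powerset.2 (Finset.filter_subset _ _),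
        Finset.mem_powerset.2 (Finset.filter_subset _ _)⟩)
      ⟨(∅, ∅), Finset.mem_product.2 ⟨Finset.empty_mem_powerset _, Finset.empty_mem_powerset _⟩⟩ (by
        rw [Finset.card_product, Finset.card_powerset, Finset.card_powerset]
        refine le_trans ?_ hlt.le
        rw [hM]
        exact Nat.mul_le_mul_right _ (Nat.mul_le_mul (Nat.pow_le_pow_right (by norm_num) hB'.1)
          (Nat.pow_le_pow_right (by norm_num) hB0.1)))
    have hfib : ∀ c ∈ E.filter (fun x => (B'.filter (fun v => G.adj x v), B0.filter (fun v => G.adj v x)) = y),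
        c ∈ E ∧ B'.filter (fun v => G.adj c v) = y.1 ∧ B0.filter (fun v => G.adj v c) = y.2 := by
      intro c hc
      have h1 := Finset.mem_filter.1 hc
      exact ⟨h1.1, congrArg Prod.fst h1.2, congrArg Prod.snd h1.2⟩
    have hpos : 0 < 2 ^ k := by positivity
    obtain ⟨c0, hc0⟩ := Finset.card_pos.1 (lt_of_lt_of_le hpos hy)
    obtain ⟨hc0, hc1, hc2⟩ := hfib c0 hc0
    apply hfree
    have hI1 : Into G H1 y.1 := by rw [← hc1]; exact (hEp c0 hc0).1
    have hI2 : Into G H2 y.2 := by rw [← hc2]; exact (hEp c0 hc0).2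
    refine (Into.delta (Y := Finset.univ) hI1 hI2 (into_TT G k _ hy) (Finset.subset_univ _)
      (Finset.subset_univ _) (Finset.subset_univ _) ?_ ?_ ?_).contains
    · intro u hu v hv
      rw [← hc1, Finset.mem_filter] at hu
      rw [← hc2, Finset.mem_filter] at hv
      exact hB'0 u hu.1 v hv.1
    · intro v hv c hc
      rw [← (hfib c hc).2.2, Finset.mem_filter] at hv
      exact hv.2
    · intro c hc u hu
      rw [← (hfib c hc).2.1, Finset.mem_filter] at hu
      exact hu.2
  have hlt : (N B0).card < (N B').card := by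
    have h1 : (N B0 \ E) ∪ W ⊆ N B' := by
      intro x hx
      rcases Finset.mem_union.1 hx with hx | hx
      · rw [Finset.mem_sdiff] at hx
        by_contra hn
        exact hx.2 (by rw [hE]; exact Finset.mem_sdiff.2 ⟨hx.1, hn⟩)
      · exact hWN hx
    have h2 := Finset.card_le_card h1
    rw [Finset.card_union_of_disjoint (hWdisj.mono_left Finset.sdiff_subset),
      Finset.card_sdiff_of_subset (by rw [hE]; exact Finset.sdiff_subset), hWc] at h2
    have h3 : E.card ≤ (N B0).card := Finset.card_le_card (by rw [hE]; exact Finset.sdiff_subset)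
    omega
  exact absurd (hmax B' (Finset.mem_filter.2 ⟨Finset.mem_univ _, hB'⟩)) (not_le.2 hlt)

theorem hasArr_S (m n : ℕ) : HasArr (S m) (S n) := by
  have hCH : CH (fun i : Bool => if i = true then m else n) :=
    main_aux _ Bool (fun i : Bool => if i = true then m else n) rfl
  obtain ⟨K, b, h⟩ := hCH.rel
  refine ⟨K, b, ?_⟩
  intro G k X hX hD
  obtain ⟨B, hB1, hB2, hB3⟩ := h G.V G.adj (tour G) _ (high_large hD hX)
  refine ⟨B, ⟨hB2, ?_⟩, ?_⟩
  · intro p
    obtain ⟨i, hi⟩ := hB3 (fun v => decide (p v))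
    cases i with
    | true =>
      left
      rw [if_pos rfl] at hi
      refine (into_S m _ hi).mono ?_
      intro v hv
      rw [mem_cls] at hv
      exact Finset.mem_filter.2 ⟨hv.1, of_decide_eq_true hv.2⟩
    | false =>
      right
      rw [if_neg (by decide)] at hi
      refine (into_S n _ hi).mono ?_
      intro v hv
      rw [mem_cls] at hv
      exact Finset.mem_filter.2 ⟨hv.1, of_decide_eq_false hv.2⟩
  · intro u hu x hx
    have h1 := (Finset.mem_filter.1 (hB1 hu)).2
    have hne : u ≠ x := by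
      rintro rfl
      exact h1.1 hx
    exact (G.total u x hne).2 (h1.2 x hx)

instance nonempty_S (t : ℕ) : Nonempty (S t).V := by
  cases t with
  | zero => exact ⟨(0 : Fin 1)⟩
  | succ t => exact ⟨Sum.inr (0 : Fin 1)⟩

/-- Inside the set of the vertices which dominate `X` completely there is a copy of the rebel `H`. -/
theorem rebel_rel {H : Tournament} (hH : Rebel H) : ∃ K : ℕ, ∀ (G : Tournament) (k : ℕ) (X : Finset G.V),
    X.card ≤ k → LargeDom G.adj (K + k) →
    ∃ f : H.V → G.V, (∀ u, ∀ x ∈ X, G.adj (f u) x) ∧ ∀ u v, H.adj u v → G.adj (f u) (f v) := by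
  obtain ⟨c, hc⟩ := hH
  refine ⟨c + 1, ?_⟩
  intro G k X hX hD
  have hhigh := high_large hD hX
  set A : Finset G.V := Finset.univ.filter (fun v => v ∉ X ∧ ∀ x ∈ X, ¬ G.adj x v) with hA
  let G' : Tournament :=
    { V := ↥A
      fin := inferInstance
      adj := fun u v => G.adj u v
      irrefl := fun u => G.irrefl u
      total := fun u v huv => G.total u v (fun h => huv (Subtype.ext h)) }
  have hcont : Contains G' H := by
    by_contra hfree
    obtain ⟨D, hD1, hD2⟩ := hc G' hfree
    obtain ⟨v, hvA, hv1, hv2⟩ := hhigh (D.map (Function.Embedding.subtype _)) (by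
      intro v hv
      obtain ⟨v', hv', rfl⟩ := Finset.mem_map.1 hv
      exact v'.2) (by rw [Finset.card_map]; exact Nat.lt_succ_of_le hD1)
    have hvD : (⟨v, hvA⟩ : ↥A) ∉ D := fun hmem => hv1 (Finset.mem_map.2 ⟨⟨v, hvA⟩, hmem, rfl⟩)
    obtain ⟨d, hd, hdv⟩ := hD2 ⟨v, hvA⟩ hvD
    exact hv2 d (Finset.mem_map.2 ⟨d, hd, rfl⟩) hdv
  obtain ⟨f, -, hf⟩ := hcont
  refine ⟨fun u => (f u : G.V), ?_, fun u v huv => (hf u v).1 huv⟩
  intro u x hx
  have h1 := (Finset.mem_filter.1 (f u).2).2
  have hne : (f u : G.V) ≠ x := by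
    intro e
    exact h1.1 (e ▸ hx)
  exact (G.total _ x hne).2 (h1.2 x hx)

theorem hasArr_TT {H : Tournament} (hH : Rebel H) (j : ℕ) : HasArr H (TT j) := by
  obtain ⟨K1, hK1⟩ := rebel_rel hH
  induction j with
  | zero =>
    refine ⟨0, 0, ?_⟩
    intro G k X _ _
    refine ⟨∅, ⟨by simp, fun p => Or.inr ?_⟩, fun u hu => absurd hu (Finset.notMem_empty _)⟩
    exact into_TT_iff.2 ⟨fun i => i.elim0, fun i => i.elim0, fun i => i.elim0⟩
  | succ j ih =>
    obtain ⟨K, b, h⟩ := ih
    refine ⟨K + K1 + b, b + Fintype.card H.V, ?_⟩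
    intro G k X hX hD
    have hmono : ∀ L L' : ℕ, L ≤ L' → LargeDom G.adj L' → LargeDom G.adj L :=
      fun L L' hL h' D hDc => h' D (lt_of_lt_of_le hDc hL)
    obtain ⟨B, hB, hBX⟩ := h G k X hX (hmono _ _ (by omega) hD)
    obtain ⟨f, hf1, hf2⟩ := hK1 G (b + k) (B ∪ X) (by
      have h1 := Finset.card_union_le B X
      have h2 := hB.1
      omega) (hmono _ _ (by omega) hD)
    have himg : ∀ u, f u ∈ Finset.univ.image f := fun u => Finset.mem_image_of_mem f (Finset.mem_univ u)
    refine ⟨B ∪ Finset.univ.image f, ⟨?_, ?_⟩, ?_⟩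
    · have h1 := Finset.card_union_le B (Finset.univ.image f)
      have h2 : (Finset.univ.image f).card ≤ Fintype.card H.V := Finset.card_image_le
      have h3 := hB.1
      omega
    · intro p
      rcases hB.2 p with h1 | h1
      · left
        exact h1.mono (Finset.filter_subset_filter _ Finset.subset_union_left)
      by_cases hall : ∀ u, p (f u)
      · left
        exact ⟨f, fun u => Finset.mem_filter.2 ⟨Finset.mem_union_right _ (himg u), hall u⟩, hf2⟩
      · right
        push Not at hall
        obtain ⟨u0, hu0⟩ := hall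
        obtain ⟨g, hg1, hg2⟩ := into_TT_iff.1 h1
        refine into_TT_iff.2 ⟨Fin.cons (α := fun _ => G.V) (f u0) g, ?_, ?_⟩
        · intro i
          refine Fin.cases ?_ (fun i => ?_) i
          · exact Finset.mem_filter.2 ⟨Finset.mem_union_right _ (himg u0), hu0⟩
          · have h2 := Finset.mem_filter.1 (hg1 i)
            exact Finset.mem_filter.2 ⟨Finset.mem_union_left _ h2.1, h2.2⟩
        · intro i j'
          refine Fin.cases ?_ (fun j' => ?_) j'
          · intro hij
            exact absurd hij (Fin.not_lt_zero i)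
          · refine Fin.cases ?_ (fun i => ?_) i
            · intro _
              exact hf1 u0 _ (Finset.mem_union_left _ (Finset.mem_filter.1 (hg1 j')).1)
            · intro hij
              exact hg2 i j' (Fin.succ_lt_succ_iff.1 hij)
    · intro u hu x hx
      rcases Finset.mem_union.1 hu with hu | hu
      · exact hBX u hu x hx
      · obtain ⟨u', -, rfl⟩ := Finset.mem_image.1 hu
        exact hf1 u' x (Finset.mem_union_right _ hx)

/-- The tournaments `Δ(S_(m+1), S_(n+1), TT_k)` are rebels. -/
theorem rebel_SST (m n k : ℕ) : Rebel (Delta (S m) (S n) (TT k)) :=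
  rebel_of_hasArr (hasArr_S m n) k

theorem Contains.delta {A B C A' B' C' : Tournament} (hA : Contains A A') (hB : Contains B B')
    (hC : Contains C C') : Contains (Delta A B C) (Delta A' B' C') := by
  obtain ⟨f, -, f2⟩ := hA
  obtain ⟨g, -, g2⟩ := hB
  obtain ⟨k, -, k2⟩ := hC
  have h : Into (Delta A B C) (Delta A' B' C') Finset.univ := by
    refine ⟨Sum.map (Sum.map f g) k, fun _ => Finset.mem_univ _, ?_⟩
    rintro ((a | b) | c) ((a' | b') | c') h
    · exact (f2 a a').1 h
    · trivial
    · exact h.elim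
    · exact h.elim
    · exact (g2 b b').1 h
    · trivial
    · trivial
    · exact h.elim
    · exact (k2 c c').1 h
  exact h.contains

theorem contains_refl (A : Tournament) : Contains A A := ⟨id, Function.injective_id, fun _ _ => Iff.rfl⟩

/-- Subtournaments of rebels are rebels. -/
theorem Rebel.sub {H H' : Tournament} (h : Rebel H) (hc : Contains H H') : Rebel H' := by
  obtain ⟨c, hc'⟩ := h
  refine ⟨c, fun G hG => hc' G (fun hGH => hG ?_)⟩
  obtain ⟨f, f1, f2⟩ := hGH
  obtain ⟨g, g1, g2⟩ := hc
  exact ⟨f ∘ g, f1.comp g1, fun u v => (g2 u v).trans (f2 (g u) (g v))⟩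

theorem rebel_point : Rebel (TT 1) := by
  refine ⟨0, fun G hG => ⟨∅, by simp, fun z _ => ?_⟩⟩
  exact absurd (into_point (Y := Finset.univ) (Finset.mem_univ z)).contains hG

/-- If `H` is a rebel, so is `Δ(H, TT_j, TT_k)`, for all `j` and `k`. -/
theorem rebel_HTT {H : Tournament} (hH : Rebel H) (j k : ℕ) : Rebel (Delta H (TT j) (TT k)) := by
  have key : ∀ (H : Tournament) (_ : Nonempty H.V) (_ : Rebel H) (j : ℕ), 1 ≤ j →
      Rebel (Delta H (TT j) (TT k)) := by
    intro H hne hH j hj
    have hne' : Nonempty (TT j).V := ⟨(⟨0, hj⟩ : Fin j)⟩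
    exact rebel_of_hasArr (hasArr_TT hH j) k
  have key2 : ∀ (H : Tournament) (_ : Nonempty H.V) (_ : Rebel H) (j : ℕ),
      Rebel (Delta H (TT j) (TT k)) := by
    intro H hne hH j
    rcases Nat.eq_zero_or_pos j with rfl | hj
    · refine (key H hne hH 1 le_rfl).sub (Contains.delta (contains_refl _) ?_ (contains_refl _))
      exact ⟨fun i : Fin 0 => i.elim0, fun i : Fin 0 => i.elim0, fun i : Fin 0 => i.elim0⟩
    · exact key H hne hH j hj
  rcases isEmpty_or_nonempty H.V with he | hne
  · refine (key2 (TT 1) ⟨(0 : Fin 1)⟩ rebel_point j).sub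
      (Contains.delta ?_ (contains_refl _) (contains_refl _))
    exact ⟨fun i => he.elim i, fun i => he.elim i, fun i => he.elim i⟩
  · exact key2 H hne hH j

end Pool.Agent.helper87_dom
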